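import Pool.Agent.TH457.HT.ThreeSumN

/-!
# 3SUM: nondeterministic and zero-error machines with slow heads

A set of exactly `N` integers between `- N ^ 3` and `N ^ 3` is given as a list, in any order, by a
word of `n = N (w + 1)` bits.  Nonuniform nondeterministic programs with `k` two-way heads, which
move by at most one position in a step, with at most `2 ^ S` configurations, which accept exactly
the sets without pairwise distinct elements `a + b = c`, each in at most `T` steps of some
computation, satisfy `(k T + n) ^ 2 * k * (S + 1) * (w + 1) ≥ n ^ 3 / 26000`.  A randomized program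
which always gives the right answer, in expected time `T`, is a special case.  On the word RAM there
are nondeterministic algorithms of time `N ^ (3 / 2 + o(1))` for the sets without solution
(Carmosino, Gao, Impagliazzo, Mihajlin, Paturi, Schneider), so the exponent `3 / 2` is natural here.

Proof. The general theorem on blocks (`Pool.Agent.TH457.HT.Gen3`) says that such programs cannot
accept exactly the words whose blocks give distinct numbers `v_j < 2 h ^ 2`, `h = N / 3`.  Block `j`
consists of `8 (y_j - Y) + 1`, `8 (Y - y_j) + 3` and `8 (j + 1) + 4` with
`y_j = (3 h + 3) v_j + j` and `2 Y = 2 h ^ 2 (3 h + 3)`; the remaining integers are `8 t + 4` with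
`t` between `h + 1` and `2 h + 1` modulo `3 h + 3`.  By the residues modulo `8`, a solution is of the
form `y_i - y_j = t`, which is possible iff `v_i = v_j` for some `i ≠ j`.
-/

set_option autoImplicit false

namespace Pool.Agent.Results.MP_13bec0_lc.NondeterministicHeads

open Pool.Agent.TH457.HT

/-- Let `P` be a nondeterministic program with `k ≥ 1` two-way heads for words of `N (w + 1)` bits
and with at most `2 ^ S` configurations.  If, among the lists of `N` distinct integers of absolute
value at most `N ^ 3`, it accepts only lists without a solution, and each of these by some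
computation with at most `T` steps, then
`n ^ 3 ≤ 26000 * k * (S + 1) * (w + 1) * (k * T + n) ^ 2` for `n = N (w + 1)`. -/
theorem result (N w k T S : ℕ) (P : HeadProg Bool (N * (w + 1)) k)
    (hk : 1 ≤ k) (hS : Fintype.card P.Q * (N * (w + 1)) ^ k ≤ 2 ^ S)
    (hsound : ∀ x : Fin N → ℤ, Function.Injective x → (∀ i, |x i| ≤ (N : ℤ) ^ 3) →
      P.Accepts (zword N w x) → ¬ HasSum x)
    (hacc : ∀ x : Fin N → ℤ, Function.Injective x → (∀ i, |x i| ≤ (N : ℤ) ^ 3) →
      ¬ HasSum x → P.AcceptsIn T (zword N w x)) :
    (N * (w + 1)) ^ 3 ≤ 26000 * (k * (S + 1) * (w + 1) * (k * T + N * (w + 1)) ^ 2) :=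
  threeSum_nondet N w P T S hk hS hsound hacc

end Pool.Agent.Results.MP_13bec0_lc.NondeterministicHeads
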