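import Pool.Agent.TH697.Form.ThreeSum

set_option autoImplicit false

/-! # 3SUM for randomised formulas

The input consists of `m + m'` distinct integers.  A leaf of a formula is an arbitrary predicate of
one of the first `m` numbers or an arbitrary predicate of the whole list of the other `m'` numbers,
and a gate is an arbitrary function of two bits. -/

namespace Pool.Agent.Results.MP_13bec0_lc.RandomizedFormulas

open Pool.Agent.TH697.Form Pool.Agent.TH697.Form.ThreeSum

theorem result (m m' : ℕ) (hm : 100 ≤ m) (hm' : 100 ≤ m') (Ω : Type) [Fintype Ω] (μ : Ω → ℝ)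
    (hμ : IsProb μ) (F : Ω → Fml (Option (Fin m)) (Item m m'))
    (hF : Computes μ F (Valid m m') (threeSum m m')) :
    (m : ℝ) * m' * Nat.log 2 m' ≤ 800 * expSize μ F :=
  lower hm hm' μ hμ F hF

end Pool.Agent.Results.MP_13bec0_lc.RandomizedFormulas
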